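import Mathlib

/-!
# Normal form of alternating matrices

Every alternating matrix is a sum of elementary alternating matrices `c bᵀ - b cᵀ` with linearly
independent vectors.
-/

set_option autoImplicit false

namespace Pool.Agent.Helper37.TS

open Matrix

variable {F : Type} [Field F] {d : ℕ}

open Classical in
theorem alt_decomp_aux : ∀ (m : ℕ) (N : Fin d → Fin d → F),
    (Finset.univ.filter (fun i => ∃ j, N i j ≠ 0)).card ≤ m → (∀ i, N i i = 0) →
    (∀ i j, N i j = -N j i) →
    ∃ (ι : Type) (_ : Fintype ι) (b c : ι → Fin d → F),
      LinearIndependent F (Sum.elim b c) ∧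
      (∀ i j, N i j = ∑ k, (c k i * b k j - b k i * c k j)) ∧
      ∀ i, (∀ j, N i j = 0) → ∀ k, b k i = 0 ∧ c k i = 0 := by
  intro m
  induction m with
  | zero =>
    intro N hN hd hs
    have h0 : ∀ i j, N i j = 0 := by
      intro i j
      by_contra h
      have h1 : i ∈ Finset.univ.filter (fun i => ∃ j, N i j ≠ 0) :=
        Finset.mem_filter.2 ⟨Finset.mem_univ _, j, h⟩
      have h2 := Finset.card_pos.2 ⟨i, h1⟩
      omega
    refine ⟨Empty, inferInstance, fun k => k.elim, fun k => k.elim, ?_, ?_, ?_⟩
    · exact linearIndependent_empty_type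
    · intro i j
      rw [h0 i j]
      simp
    · intro i _ k
      exact k.elim
  | succ m ih =>
    intro N hN hd hs
    by_cases h0 : ∀ i j, N i j = 0
    · refine ⟨Empty, inferInstance, fun k => k.elim, fun k => k.elim, ?_, ?_, ?_⟩
      · exact linearIndependent_empty_type
      · intro i j
        rw [h0 i j]
        simp
      · intro i _ k
        exact k.elim
    · push Not at h0
      obtain ⟨i₀, j₀, hα⟩ := h0
      set α := N i₀ j₀ with hαd
      have hji : N j₀ i₀ = -α := by rw [hs j₀ i₀]
      -- the reduced matrix
      set N' : Fin d → Fin d → F := fun i j =>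
        N i j - α⁻¹ * (N i i₀ * N j j₀ - N i j₀ * N j i₀) with hN'
      have hrow : ∀ i, (∀ j, N i j = 0) → ∀ j, N' i j = 0 := by
        intro i hi j
        simp only [hN', hi, zero_mul, sub_zero, mul_zero]
      have hi₀ : ∀ j, N' i₀ j = 0 := by
        intro j
        simp only [hN', hd i₀, ← hαd, zero_mul, zero_sub]
        rw [hs i₀ j]
        field_simp
        ring
      have hj₀ : ∀ j, N' j₀ j = 0 := by
        intro j
        simp only [hN', hd j₀, hji, zero_mul, sub_zero]
        rw [hs j₀ j]
        field_simp
        ring
      have hcard : (Finset.univ.filter (fun i => ∃ j, N' i j ≠ 0)).card ≤ m := by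
        have h1 : Finset.univ.filter (fun i => ∃ j, N' i j ≠ 0) ⊆
            (Finset.univ.filter (fun i => ∃ j, N i j ≠ 0)).erase i₀ := by
          intro i hi
          obtain ⟨-, j, hj⟩ := Finset.mem_filter.1 hi
          rw [Finset.mem_erase]
          refine ⟨?_, Finset.mem_filter.2 ⟨Finset.mem_univ _, ?_⟩⟩
          · rintro rfl
            exact hj (hi₀ j)
          · by_contra hcon
            push Not at hcon
            exact hj (hrow i hcon j)
        have h2 := Finset.card_le_card h1
        rw [Finset.card_erase_of_mem (Finset.mem_filter.2 ⟨Finset.mem_univ _, j₀, hα⟩)] at h2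
        omega
      obtain ⟨ι, _, b, c, hli, hdec, hz⟩ := ih N' hcard (fun i => by
          simp only [hN', hd i]
          ring) (fun i j => by
          simp only [hN']
          rw [hs i j]
          ring)
      refine ⟨Option ι, inferInstance, fun o => o.elim (fun i => N i j₀) b,
        fun o => o.elim (fun i => α⁻¹ * N i i₀) c, ?_, ?_, ?_⟩
      · rw [Fintype.linearIndependent_iff]
        intro g hg
        have hg' : ∀ i, g (Sum.inl none) * N i j₀ + g (Sum.inr none) * (α⁻¹ * N i i₀) +
            (∑ k, g (Sum.inl (some k)) * b k i + ∑ k, g (Sum.inr (some k)) * c k i) = 0 := by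
          intro i
          have h1 := congrFun hg i
          rw [Fintype.sum_sum_type, Fintype.sum_option, Fintype.sum_option] at h1
          simp only [Sum.elim_inl, Sum.elim_inr, Option.elim_none, Option.elim_some, Pi.add_apply,
            Finset.sum_apply, Pi.smul_apply, smul_eq_mul, Pi.zero_apply] at h1
          linear_combination h1
        have z1 : ∀ k, b k i₀ = 0 ∧ c k i₀ = 0 := hz i₀ hi₀
        have z2 : ∀ k, b k j₀ = 0 ∧ c k j₀ = 0 := hz j₀ hj₀
        have e1 : g (Sum.inl none) = 0 := by
          have h1 := hg' i₀
          simp only [hd i₀, ← hαd, z1, mul_zero, Finset.sum_const_zero, add_zero] at h1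
          exact (mul_eq_zero.1 h1).resolve_right hα
        have e2 : g (Sum.inr none) = 0 := by
          have h1 := hg' j₀
          simp only [hd j₀, hji, z2, mul_zero, Finset.sum_const_zero, add_zero, zero_add] at h1
          rw [mul_neg, inv_mul_cancel₀ hα, mul_neg, mul_one, neg_eq_zero] at h1
          exact h1
        rw [Fintype.linearIndependent_iff] at hli
        have h3 := hli (Sum.elim (fun k => g (Sum.inl (some k))) (fun k => g (Sum.inr (some k))))
          (by
            funext i
            have h1 := hg' i
            rw [e1, e2, zero_mul, zero_mul, zero_add, zero_add] at h1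
            rw [Fintype.sum_sum_type]
            simp only [Sum.elim_inl, Sum.elim_inr, Pi.add_apply, Finset.sum_apply, Pi.smul_apply,
              smul_eq_mul, Pi.zero_apply]
            exact h1)
        rintro ((_ | k) | (_ | k))
        · exact e1
        · exact h3 (Sum.inl k)
        · exact e2
        · exact h3 (Sum.inr k)
      · intro i j
        rw [Fintype.sum_option]
        simp only [Option.elim_none, Option.elim_some]
        rw [← hdec i j]
        simp only [hN']
        ring
      · intro i hi k
        rcases k with _ | k
        · simp only [Option.elim_none, hi, mul_zero, and_self]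
        · exact hz i (hrow i hi) k

/-- **normal form of alternating matrices** -/
theorem alt_decomp (N : Fin d → Fin d → F) (hd : ∀ i, N i i = 0) (hs : ∀ i j, N i j = -N j i) :
    ∃ (r : ℕ) (b c : Fin r → Fin d → F), LinearIndependent F (Sum.elim b c) ∧
      ∀ i j, N i j = ∑ k, (c k i * b k j - b k i * c k j) := by
  classical
  obtain ⟨ι, _, b, c, hli, hdec, -⟩ := alt_decomp_aux _ N le_rfl hd hs
  have e := Fintype.equivFin ι
  refine ⟨Fintype.card ι, b ∘ e.symm, c ∘ e.symm, ?_, fun i j => ?_⟩
  · have h1 : Sum.elim (b ∘ e.symm) (c ∘ e.symm) = Sum.elim b c ∘ (Equiv.sumCongr e.symm e.symm) := by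
      funext x
      rcases x with x | x <;> rfl
    rw [h1]
    exact hli.comp _ (Equiv.injective _)
  · rw [hdec i j]
    exact (Equiv.sum_comp e.symm (fun k => c k i * b k j - b k i * c k j)).symm

end Pool.Agent.Helper37.TS
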