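import Pool.Agent.Helper37.TF.Main
import Pool.Agent.Helper37.TS.Alt

/-!
# Brackets of frames
-/

set_option autoImplicit false

namespace Pool.Agent.Helper37.TS

open Module Pool.Agent.Helper37.SD Pool.Agent.Helper20.TS

section Brk

variable {K : Type} [Field K] [Algebra ℂ K] {d : ℕ}

/-- `∑ N i j D i x D j y` -/
noncomputable def brk (D : Fin d → Derivation ℂ K K) (N : Fin d → Fin d → K) (x y : K) : K :=
  ∑ i, ∑ j, N i j * (D i x * D j y)

/-- the field `brk D N x` -/
noncomputable def ham (D : Fin d → Derivation ℂ K K) (N : Fin d → Fin d → K) (x : K) :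
    Derivation ℂ K K := ∑ j, (∑ i, N i j * D i x) • D j

theorem ham_apply (D : Fin d → Derivation ℂ K K) (N : Fin d → Fin d → K) (x y : K) :
    ham D N x y = brk D N x y := by
  rw [ham, brk, SD.der_sum_apply, Finset.sum_comm]
  refine Finset.sum_congr rfl fun j _ => ?_
  rw [Derivation.smul_apply, smul_eq_mul, Finset.sum_mul]
  exact Finset.sum_congr rfl fun i _ => by ring

theorem brk_swap (D : Fin d → Derivation ℂ K K) (N : Fin d → Fin d → K)
    (hs : ∀ i j, N i j = -N j i) (x y : K) : brk D N x y = -brk D N y x := by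
  rw [brk, brk, Finset.sum_comm, ← Finset.sum_neg_distrib]
  refine Finset.sum_congr rfl fun j _ => ?_
  rw [← Finset.sum_neg_distrib]
  refine Finset.sum_congr rfl fun i _ => ?_
  rw [hs i j]
  ring

/-- the field `ham` is dual to `d x` -/
theorem ham_spec {ω : Form K} {D : Fin d → Derivation ℂ K K} {g : Fin d → K} (hD : IsFrame D g)
    {N : Fin d → Fin d → K} (hN : ∀ i l, ∑ j, N i j * ω (D j) (D l) = if i = l then 1 else 0)
    (x : K) (E : Derivation ℂ K K) : ω (ham D N x) E = E x := by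
  have h1 : ∀ l, ω (ham D N x) (D l) = D l x := by
    intro l
    rw [ham, map_sum, LinearMap.sum_apply]
    have e1 : ∀ j, (ω ((∑ i, N i j * D i x) • D j)) (D l) = ∑ i, D i x * (N i j * ω (D j) (D l)) := by
      intro j
      rw [map_smul, LinearMap.smul_apply, smul_eq_mul, Finset.sum_mul]
      exact Finset.sum_congr rfl fun i _ => by ring
    rw [Finset.sum_congr rfl fun j _ => e1 j, Finset.sum_comm]
    have e2 : ∀ i, ∑ j, D i x * (N i j * ω (D j) (D l)) = if i = l then D l x else 0 := by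
      intro i
      rw [← Finset.mul_sum, hN]
      by_cases h : i = l
      · rw [if_pos h, if_pos h, mul_one, h]
      · rw [if_neg h, if_neg h, mul_zero]
    rw [Finset.sum_congr rfl fun i _ => e2 i, Finset.sum_ite_eq' Finset.univ l, if_pos (Finset.mem_univ l)]
  rw [lin_frame hD, Finset.sum_congr rfl fun l _ => by rw [h1 l]]
  conv_rhs => rw [hD.complete E]
  rw [SD.der_sum_apply]
  exact Finset.sum_congr rfl fun i _ => by rw [Derivation.smul_apply, smul_eq_mul]

/-- the bracket in terms of the normal form -/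
theorem brk_decomp (D : Fin d → Derivation ℂ K K) {N : Fin d → Fin d → K} {r : ℕ}
    {b c : Fin r → Fin d → K} (h : ∀ i j, N i j = ∑ k, (c k i * b k j - b k i * c k j)) (x y : K) :
    brk D N x y = ∑ k, ((∑ i, c k i • D i) x * (∑ i, b k i • D i) y -
      (∑ i, b k i • D i) x * (∑ i, c k i • D i) y) := by
  have e : ∀ (u w : Fin d → K) , (∑ i, u i • D i) x * (∑ i, w i • D i) y =
      ∑ i, ∑ j, (u i * w j) * (D i x * D j y) := by
    intro u w
    rw [SD.der_sum_apply, SD.der_sum_apply, Finset.sum_mul]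
    refine Finset.sum_congr rfl fun i _ => ?_
    rw [Finset.mul_sum]
    refine Finset.sum_congr rfl fun j _ => ?_
    rw [Derivation.smul_apply, Derivation.smul_apply, smul_eq_mul, smul_eq_mul]
    ring
  have e' : ∀ k, ((∑ i, c k i • D i) x * (∑ i, b k i • D i) y -
      (∑ i, b k i • D i) x * (∑ i, c k i • D i) y) =
      ∑ i, ∑ j, (c k i * b k j - b k i * c k j) * (D i x * D j y) := by
    intro k
    rw [e, e, ← Finset.sum_sub_distrib]
    refine Finset.sum_congr rfl fun i _ => ?_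
    rw [← Finset.sum_sub_distrib]
    exact Finset.sum_congr rfl fun j _ => by ring
  rw [Finset.sum_congr rfl fun k _ => e' k, Finset.sum_comm, brk]
  refine Finset.sum_congr rfl fun i _ => ?_
  rw [Finset.sum_comm]
  refine Finset.sum_congr rfl fun j _ => ?_
  rw [h, Finset.sum_mul]

omit [Algebra ℂ K] in
theorem tJ_apply {r : ℕ} (A : Matrix (Fin r ⊕ Fin r) (Fin r ⊕ Fin r) K) (i j : Fin r ⊕ Fin r) :
    (A.transpose * Matrix.J (Fin r) K * A) i j =
      ∑ k, (A (Sum.inr k) i * A (Sum.inl k) j - A (Sum.inl k) i * A (Sum.inr k) j) := by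
  have h1 : ∀ k, (A.transpose * Matrix.J (Fin r) K) i (Sum.inl k) = A (Sum.inr k) i := by
    intro k
    rw [Matrix.mul_apply, Fintype.sum_sum_type]
    simp [Matrix.J, Matrix.one_apply]
  have h2 : ∀ k, (A.transpose * Matrix.J (Fin r) K) i (Sum.inr k) = -A (Sum.inl k) i := by
    intro k
    rw [Matrix.mul_apply, Fintype.sum_sum_type]
    simp [Matrix.J, Matrix.one_apply]
  rw [Matrix.mul_apply, Fintype.sum_sum_type]
  simp only [h1, h2]
  rw [← Finset.sum_add_distrib]
  exact Finset.sum_congr rfl fun k _ => by ring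

/-- the matrix of brackets -/
theorem brk_matrix (D : Fin d → Derivation ℂ K K) {N : Fin d → Fin d → K} {r : ℕ}
    {b c : Fin r → Fin d → K} (h : ∀ i j, N i j = ∑ k, (c k i * b k j - b k i * c k j))
    (f : Fin r ⊕ Fin r → K) :
    (Matrix.of fun i j => brk D N (f i) (f j)) =
      (Matrix.of fun p j => Sum.elim (fun k => ∑ i, b k i • D i) (fun k => ∑ i, c k i • D i) p
        (f j)).transpose * Matrix.J (Fin r) K *
      (Matrix.of fun p j => Sum.elim (fun k => ∑ i, b k i • D i) (fun k => ∑ i, c k i • D i) p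
        (f j)) := by
  ext i j
  rw [tJ_apply, Matrix.of_apply, brk_decomp D h]
  rfl

end Brk

section Det

variable {K : Type} [Field K] [Algebra ℂ K] {R : Subalgebra ℂ K} {ξ : Derivation ℂ K K}

theorem det_mem {ι : Type} [Fintype ι] [DecidableEq ι] (M : Matrix ι ι K)
    (h : ∀ i j, M i j ∈ R) : M.det ∈ R := by
  rw [Matrix.det_apply]
  refine R.sum_mem fun σ _ => ?_
  have h1 : ∏ i, M (σ i) i ∈ R := R.prod_mem fun i _ => h _ _
  rcases Int.units_eq_one_or (Equiv.Perm.sign σ) with hs | hs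
  · rw [hs, one_smul]
    exact h1
  · rw [hs]
    have e : ((-1 : ℤˣ) • ∏ i, M (σ i) i) = -∏ i, M (σ i) i := by
      rw [Units.smul_def]
      simp
    rw [e]
    exact R.neg_mem h1

theorem eig_det' {ι : Type} [Fintype ι] [DecidableEq ι] (u w : ι → ℝ) {M : Matrix ι ι K}
    (h : ∀ i j, ξ (M i j) = ((u i + w j : ℝ) : ℂ) • M i j) :
    ξ M.det = ((∑ i, u i + ∑ i, w i : ℝ) : ℂ) • M.det := by
  rw [Matrix.det_apply, map_sum, Finset.smul_sum]
  refine Finset.sum_congr rfl fun σ _ => ?_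
  have h1 := eig_prod (ξ := ξ) Finset.univ (fun i => u (σ i) + w i) (fun i => M (σ i) i)
    (fun i _ => h _ _)
  rw [Finset.sum_add_distrib, Equiv.sum_comp σ u] at h1
  rcases Int.units_eq_one_or (Equiv.Perm.sign σ) with hs | hs
  · rw [hs, one_smul, h1]
  · rw [hs]
    have e : ((-1 : ℤˣ) • ∏ i, M (σ i) i) = -∏ i, M (σ i) i := by
      rw [Units.smul_def]
      simp
    rw [e, map_neg, h1, smul_neg]

theorem two_ne : (2 : K) ≠ 0 := by
  have h : algebraMap ℂ K 2 = 2 := map_ofNat _ 2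
  rw [← h]
  exact (map_ne_zero _).mpr two_ne_zero

theorem eig_sqrt {x : K} {c : ℝ} (h : ξ (x ^ 2) = ((2 * c : ℝ) : ℂ) • x ^ 2) :
    ξ x = (c : ℂ) • x := by
  by_cases hx : x = 0
  · rw [hx, map_zero, smul_zero]
  · rw [pow_two, Derivation.leibniz, smul_eq_mul] at h
    push_cast at h
    rw [mul_smul, Algebra.smul_def, Algebra.smul_def] at h
    rw [Algebra.smul_def]
    have h2 : algebraMap ℂ K 2 = 2 := map_ofNat _ 2
    rw [h2] at h
    have h3 : (2 * x) * ξ x = (2 * x) * (algebraMap ℂ K (c : ℂ) * x) := by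
      linear_combination h
    exact mul_left_cancel₀ (mul_ne_zero two_ne hx) h3

theorem normal_sqrt (hn : Normal R) {x : K} (h : x ^ 2 ∈ R) : x ∈ R := by
  refine hn x (IsIntegral.of_pow (n := 2) (by norm_num) ?_)
  exact isIntegral_algebraMap (R := R) (A := K) (x := ⟨x ^ 2, h⟩)

theorem pres_of_hom (h : IsCone R ξ) {Z : Derivation ℂ K K}
    (hZ : ∀ x ∈ R, ∀ c : ℝ, ξ x = (c : ℂ) • x → Z x ∈ R) : Pres R Z := by
  intro x hx
  have h1 : RH R ξ (fun c => 0 ≤ c) ≤ (RS R).comap (Z : K →ₗ[ℂ] K) := by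
    refine Submodule.span_le.mpr ?_
    rintro y ⟨hyR, c, _, hc⟩
    exact hZ y hyR c hc
  exact h1 (h.span x hx)

/-- least value of the entries -/
theorem exists_min_val {d : ℕ} (v : RVal K) (W : Fin d → Fin d → K) (h : ∃ i j, W i j ≠ 0) :
    ∃ k : ℝ, (∀ i j, v.Ge k (W i j)) ∧ ∃ i j, W i j ≠ 0 ∧ v.val (W i j) = k := by
  classical
  obtain ⟨i₀, j₀, h₀⟩ := h
  obtain ⟨p, hp, hmin⟩ := Finset.exists_min_image
    (Finset.univ.filter fun p : Fin d × Fin d => W p.1 p.2 ≠ 0) (fun p => v.val (W p.1 p.2))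
    ⟨(i₀, j₀), Finset.mem_filter.2 ⟨Finset.mem_univ _, h₀⟩⟩
  refine ⟨v.val (W p.1 p.2), fun i j => ?_, p.1, p.2, (Finset.mem_filter.1 hp).2, rfl⟩
  by_cases hij : W i j = 0
  · exact Or.inl hij
  · exact Or.inr (hmin (i, j) (Finset.mem_filter.2 ⟨Finset.mem_univ _, hij⟩))

end Det

end Pool.Agent.Helper37.TS
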