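import Pool.Agent.Helper37.SD.Defs

/-!
# The slope inequality for multivector fields of a cone
-/

set_option autoImplicit false

namespace Pool.Agent.Helper37.TS

/-- **Slope inequality** for the multivector fields of a cone of dimension `2 n`: if
`P = D 0 ∧ … ∧ D (2 r - 1)`, `0 < 2 r < 2 n`, is nonzero, regular (it maps `R × … × R` to `R`) and
homogeneous of weight `-e`, then `e ≤ 2 r a / (2 n)`. -/
def SlopeLe {K : Type} [Field K] [Algebra ℂ K] (n : ℕ) (R : Subalgebra ℂ K)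
    (ξ : Derivation ℂ K K) (a : ℝ) : Prop :=
  ∀ r : ℕ, 0 < r → r < n → ∀ D : Fin (2 * r) → Derivation ℂ K K, LinearIndependent K D →
    (∀ f : Fin (2 * r) → K, (∀ j, f j ∈ R) → (Matrix.of fun i j => D i (f j)).det ∈ R) →
    ∀ e : ℝ, (∀ (f : Fin (2 * r) → K) (s : Fin (2 * r) → ℝ), (∀ j, f j ∈ R) →
      (∀ j, ξ (f j) = (s j : ℂ) • f j) →
      ξ (Matrix.of fun i j => D i (f j)).det =
        ((∑ j, s j - e : ℝ) : ℂ) • (Matrix.of fun i j => D i (f j)).det) →
    e ≤ r * a / n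

end Pool.Agent.Helper37.TS
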