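import Pool.Agent.Helper37.TS.Brk
import Pool.Agent.Helper37.TS.Defs

/-!
# The slope inequality implies that the degeneration is symplectic
-/

set_option autoImplicit false

namespace Pool.Agent.Helper37.TS

open Module Pool.Agent.Helper37.SD Pool.Agent.Helper20.TS

section Lin

variable {F : Type} [Field F] {n : ℕ}

/-- a degenerate alternating matrix has few terms in its normal form -/
theorem lt_of_det_eq_zero {N : Fin (2 * n) → Fin (2 * n) → F} {r : ℕ}
    {b c : Fin r → Fin (2 * n) → F} (hli : LinearIndependent F (Sum.elim b c))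
    (h : ∀ i j, N i j = ∑ k, (c k i * b k j - b k i * c k j))
    (hdet : (Matrix.of N).det = 0) : r < n := by
  have h1 := hli.fintype_card_le_finrank
  rw [Fintype.card_sum, Fintype.card_fin, Module.finrank_fin_fun] at h1
  by_contra hcon
  have hrn : r = n := by omega
  have hcard : Fintype.card (Fin r ⊕ Fin r) = finrank F (Fin (2 * n) → F) := by
    rw [Fintype.card_sum, Fintype.card_fin, Module.finrank_fin_fun]
    omega
  have hspan := hli.span_eq_top_of_card_eq_finrank' hcard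
  obtain ⟨x, hx0, hx⟩ := Matrix.exists_mulVec_eq_zero_iff.mpr hdet
  have h2 : ∀ i, ∑ k, ((∑ j, b k j * x j) * c k i - (∑ j, c k j * x j) * b k i) = 0 := by
    intro i
    have h3 := congrFun hx i
    rw [Matrix.mulVec, dotProduct] at h3
    simp only [Matrix.of_apply, Pi.zero_apply] at h3
    rw [← h3]
    have h4 : ∀ j, N i j * x j = ∑ k, (c k i * b k j - b k i * c k j) * x j := by
      intro j
      rw [h, Finset.sum_mul]
    rw [Finset.sum_congr rfl fun j _ => h4 j, Finset.sum_comm]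
    refine Finset.sum_congr rfl fun k _ => ?_
    rw [Finset.sum_mul, Finset.sum_mul, ← Finset.sum_sub_distrib]
    exact Finset.sum_congr rfl fun j _ => by ring
  rw [Fintype.linearIndependent_iff] at hli
  have h5 := hli (Sum.elim (fun k => -∑ j, c k j * x j) (fun k => ∑ j, b k j * x j)) (by
    funext i
    rw [Fintype.sum_sum_type]
    simp only [Sum.elim_inl, Sum.elim_inr, Pi.add_apply, Finset.sum_apply, Pi.smul_apply,
      smul_eq_mul, Pi.zero_apply]
    rw [← h2 i, ← Finset.sum_add_distrib]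
    exact Finset.sum_congr rfl fun k _ => by ring)
  -- the functional `y ↦ ∑ y j x j` vanishes
  let φ : (Fin (2 * n) → F) →ₗ[F] F :=
    { toFun := fun y => ∑ j, y j * x j
      map_add' := fun y z => by
        rw [← Finset.sum_add_distrib]
        exact Finset.sum_congr rfl fun j _ => by rw [Pi.add_apply]; ring
      map_smul' := fun t y => by
        rw [RingHom.id_apply, smul_eq_mul, Finset.mul_sum]
        exact Finset.sum_congr rfl fun j _ => by rw [Pi.smul_apply, smul_eq_mul]; ring }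
  have hφ : Submodule.span F (Set.range (Sum.elim b c)) ≤ LinearMap.ker φ := by
    refine Submodule.span_le.mpr ?_
    rintro _ ⟨k | k, rfl⟩
    · exact h5 (Sum.inr k)
    · have h6 := h5 (Sum.inl k)
      simp only [Sum.elim_inl, neg_eq_zero] at h6
      exact h6
  rw [hspan] at hφ
  apply hx0
  classical
  funext j
  have h7 : φ (Pi.single j 1) = 0 := hφ Submodule.mem_top
  have h8 : φ (Pi.single j 1) = x j := by
    show ∑ l, (Pi.single j 1 : Fin (2 * n) → F) l * x l = x j
    simp [Pi.single_apply]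
  rw [← h8, h7]
  rfl

end Lin

variable {K : Type} [Field K] [Algebra ℂ K] {K₀ : Type} [Field K₀] [Algebra ℂ K₀]
  {R : Subalgebra ℂ K} {v : RVal K} {R₀ : Subalgebra ℂ K₀} {ξ : Derivation ℂ K₀ K₀}
  {sym : ℝ → K → K₀}

/-- the slope inequality for a bracket -/
theorem slope_brk {n : ℕ} {D₀ : Fin (2 * n) → Derivation ℂ K₀ K₀} {g₀ : Fin (2 * n) → K₀}
    (hD₀ : IsFrame D₀ g₀) (hnorm : Normal R₀) {a : ℝ} (hsl : SlopeLe n R₀ ξ a)
    {N₀ : Fin (2 * n) → Fin (2 * n) → K₀} {w : ℝ}
    (hbr : ∀ x ∈ R₀, ∀ y ∈ R₀, brk D₀ N₀ x y ∈ R₀)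
    (heig : ∀ x ∈ R₀, ∀ y ∈ R₀, ∀ s t : ℝ, ξ x = (s : ℂ) • x → ξ y = (t : ℂ) • y →
      ξ (brk D₀ N₀ x y) = ((s + t - w : ℝ) : ℂ) • brk D₀ N₀ x y)
    {r : ℕ} (hr0 : 0 < r) (hr : r < n) {b c : Fin r → Fin (2 * n) → K₀}
    (hli : LinearIndependent K₀ (Sum.elim b c))
    (hN : ∀ i j, N₀ i j = ∑ k, (c k i * b k j - b k i * c k j)) : r * w ≤ r * a / n := by
  classical
  set D' : Fin r ⊕ Fin r → Derivation ℂ K₀ K₀ :=
    Sum.elim (fun k => ∑ i, b k i • D₀ i) (fun k => ∑ i, c k i • D₀ i) with hD'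
  have hD'li : LinearIndependent K₀ D' := by
    rw [Fintype.linearIndependent_iff] at hli ⊢
    intro u hu
    refine hli u ?_
    funext i
    have h1 : ∑ l, (∑ p, u p * Sum.elim b c p l) • D₀ l = 0 := by
      rw [← hu]
      have h2 : ∀ p, u p • D' p = ∑ l, (u p * Sum.elim b c p l) • D₀ l := by
        intro p
        rcases p with k | k
        · simp only [hD', Sum.elim_inl, Finset.smul_sum, smul_smul]
        · simp only [hD', Sum.elim_inr, Finset.smul_sum, smul_smul]
      rw [Finset.sum_congr rfl fun p _ => h2 p, Finset.sum_comm]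
      exact Finset.sum_congr rfl fun l _ => by rw [Finset.sum_smul]
    have h3 := hD₀.linInd h1 i
    rw [Finset.sum_apply]
    simp only [Pi.smul_apply, smul_eq_mul, Pi.zero_apply]
    exact h3
  -- the square of the determinant
  have hsq : ∀ f : Fin r ⊕ Fin r → K₀, (Matrix.of fun p j => D' p (f j)).det ^ 2 =
      (Matrix.J (Fin r) K₀).det * (Matrix.of fun i j => brk D₀ N₀ (f i) (f j)).det := by
    intro f
    rw [brk_matrix D₀ hN f, Matrix.det_mul, Matrix.det_mul, Matrix.det_transpose]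
    have h1 := Matrix.J_det_mul_J_det (Fin r) K₀
    linear_combination -((Matrix.of fun p j => D' p (f j)).det ^ 2) * h1
  have hJ : (Matrix.J (Fin r) K₀).det = 1 ∨ (Matrix.J (Fin r) K₀).det = -1 := by
    have h1 := Matrix.J_det_mul_J_det (Fin r) K₀
    exact mul_self_eq_one_iff.mp h1
  have hmem : ∀ f : Fin r ⊕ Fin r → K₀, (∀ j, f j ∈ R₀) →
      (Matrix.of fun p j => D' p (f j)).det ∈ R₀ := by
    intro f hf
    refine normal_sqrt hnorm ?_
    rw [hsq]
    refine R₀.mul_mem ?_ (det_mem _ fun i j => hbr _ (hf i) _ (hf j))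
    rcases hJ with h | h
    · rw [h]
      exact R₀.one_mem
    · rw [h]
      exact R₀.neg_mem R₀.one_mem
  have hhom : ∀ (f : Fin r ⊕ Fin r → K₀) (s : Fin r ⊕ Fin r → ℝ), (∀ j, f j ∈ R₀) →
      (∀ j, ξ (f j) = (s j : ℂ) • f j) →
      ξ (Matrix.of fun p j => D' p (f j)).det = ((∑ j, s j - r * w : ℝ) : ℂ) •
        (Matrix.of fun p j => D' p (f j)).det := by
    intro f s hf hs
    refine eig_sqrt ?_
    rw [hsq]
    have h1 := eig_det' (ξ := ξ) (fun i => s i - w) s
      (M := Matrix.of fun i j => brk D₀ N₀ (f i) (f j)) (fun i j => by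
        have h2 := heig _ (hf i) _ (hf j) _ _ (hs i) (hs j)
        rw [Matrix.of_apply, h2]
        congr 2
        ring)
    rw [Finset.sum_sub_distrib, Finset.sum_const, Finset.card_univ, Fintype.card_sum,
      Fintype.card_fin, nsmul_eq_mul] at h1
    have e : ((∑ i, s i - ((r + r : ℕ) : ℝ) * w + ∑ i, s i : ℝ)) = 2 * (∑ j, s j - r * w) := by
      push_cast
      ring
    rw [e] at h1
    rcases hJ with h | h
    · rw [h, one_mul, h1]
    · rw [h, neg_one_mul, map_neg, h1, smul_neg]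
  -- reindexing
  have hcard : r + r = 2 * r := (two_mul r).symm
  let e : Fin r ⊕ Fin r ≃ Fin (2 * r) := finSumFinEquiv.trans (finCongr hcard)
  have hre : ∀ f : Fin (2 * r) → K₀, (Matrix.of fun i j => (D' (e.symm i)) (f j)).det =
      (Matrix.of fun p j => D' p (f (e j))).det := by
    intro f
    rw [← Matrix.det_submatrix_equiv_self e (Matrix.of fun i j => (D' (e.symm i)) (f j))]
    congr 1
    ext i j
    simp
  refine hsl r hr0 hr (fun i => D' (e.symm i)) (hD'li.comp _ e.symm.injective) ?_ (r * w) ?_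
  · intro f hf
    rw [hre]
    exact hmem _ fun j => hf _
  · intro f s hf hs
    rw [hre, hhom (fun j => f (e j)) (fun j => s (e j)) (fun j => hf _) (fun j => hs _),
      Equiv.sum_comp e s]

theorem sum_mul_sym (hgr : IsGr R v R₀ ξ sym) {m : ℕ} {a b : ℝ} {N W : Fin m → Fin m → K}
    (hN : ∀ i j, v.Ge a (N i j)) (hW : ∀ i j, v.Ge b (W i j)) (i j : Fin m) :
    ∑ l, sym a (N i l) * sym b (W l j) = sym (a + b) (∑ l, N i l * W l j) := by
  rw [hgr.sum _ _ _ fun l _ => v.ge_mul (hN i l) (hW l j)]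
  exact Finset.sum_congr rfl fun l _ => (hgr.mul _ _ _ _ (hN i l) (hW l j)).symm

/-- brackets and symbols -/
theorem brk_sym (hgr : IsGr R v R₀ ξ sym) {m : ℕ} {D : Fin m → Derivation ℂ K K}
    {D₀ : Fin m → Derivation ℂ K₀ K₀} (hind : ∀ i, Induces v sym (D i) (D₀ i))
    {N : Fin m → Fin m → K} {w : ℝ} (hN : ∀ i j, v.Ge w (N i j)) {s t : ℝ} {x y : K}
    (hx : v.Ge s x) (hy : v.Ge t y) :
    v.Ge (w + (s + t)) (brk D N x y) ∧
      brk D₀ (fun i j => sym w (N i j)) (sym s x) (sym t y) = sym (w + (s + t)) (brk D N x y) := by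
  have hgeD : ∀ i c x, v.Ge c x → v.Ge c (D i x) := by
    intro i c x hx
    by_cases hx0 : x = 0
    · rw [hx0, map_zero]
      exact Or.inl rfl
    · exact v.ge_mono (hx.resolve_left hx0) ((hind i).1 x hx0)
  have h1 : ∀ i j, v.Ge (w + (s + t)) (N i j * (D i x * D j y)) := fun i j =>
    v.ge_mul (hN i j) (v.ge_mul (hgeD i _ _ hx) (hgeD j _ _ hy))
  refine ⟨v.ge_sum _ _ fun i _ => v.ge_sum _ _ fun j _ => h1 i j, ?_⟩
  rw [brk, brk, hgr.sum _ _ _ fun i _ => v.ge_sum _ _ fun j _ => h1 i j]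
  refine Finset.sum_congr rfl fun i _ => ?_
  rw [hgr.sum _ _ _ fun j _ => h1 i j]
  refine Finset.sum_congr rfl fun j _ => ?_
  rw [hgr.mul _ _ _ _ (hN i j) (v.ge_mul (hgeD i _ _ hx) (hgeD j _ _ hy)),
    hgr.mul _ _ _ _ (hgeD i _ _ hx) (hgeD j _ _ hy), (hind i).2 _ _ hx, (hind j).2 _ _ hy]

/-- **The slope inequality implies that the degeneration of a symplectic form is symplectic.** -/
theorem main (h : IsCone R₀ ξ) (hR : IsFrac R) (hgr : IsGr R v R₀ ξ sym) {n : ℕ}
    (hq : QuasiMonomial (2 * n) v sym) (hnorm : Normal R₀) {a : ℝ} (hsl : SlopeLe n R₀ ξ a)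
    {ω : Form K} (hω : IsNondeg R ω) (hcl : Closed ω) (hdisc : HasLogDisc n ω v a)
    {ω₀ : Form K₀} {k : ℝ} (hdeg : IsDegen v sym ω k ω₀) (hreg : IsReg R₀ ω₀) :
    k = a / n ∧ IsNondeg R₀ ω₀ ∧ Closed ω₀ ∧ HomForm ξ k ω₀ := by
  obtain ⟨g, D, D₀, hD, hD₀, hind⟩ := hq
  have hfin₀ : Module.Finite K₀ (Derivation ℂ K₀ K₀) := by
    refine Module.Finite.of_injective
      (LinearMap.pi fun i => (evd (sym (v.val (g i)) (g i)) : Derivation ℂ K₀ K₀ →ₗ[K₀] K₀)) ?_
    rw [injective_iff_map_eq_zero]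
    intro E hE
    exact hD₀.ext fun i => congrFun hE i
  have hd₀ : finrank K₀ (Derivation ℂ K₀ K₀) = 2 * n := by
    have hli : LinearIndependent K₀ D₀ := by
      rw [Fintype.linearIndependent_iff]
      exact fun c hc i => hD₀.linInd hc i
    have hsp : ⊤ ≤ Submodule.span K₀ (Set.range D₀) := by
      intro E _
      rw [hD₀.complete E]
      exact Submodule.sum_mem _ fun i _ => Submodule.smul_mem _ _
        (Submodule.subset_span ⟨i, rfl⟩)
    have := finrank_eq_card_basis (Basis.mk hli hsp)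
    rwa [Fintype.card_fin] at this
  -- the frame commutes with `ξ`, and is commuting
  have hξ : ∀ i, ⁅ξ, D₀ i⁆ = 0 := fun i =>
    hD₀.comm (c := fun i => ((v.val (g i) : ℝ) : ℂ)) (fun i => hgr.eig hR _ (Or.inr le_rfl)) i
  have hcomm : ∀ {F : Type} [Field F] [Algebra ℂ F] {D : Fin (2 * n) → Derivation ℂ F F}
      {g : Fin (2 * n) → F}, IsFrame D g → ∀ i j, ⁅D i, D j⁆ = 0 := by
    intro F _ _ D g hD i j
    refine hD.comm (c := fun l => if i = l then 1 else 0) (fun l => ?_) j
    rw [hD.apply]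
    by_cases hil : i = l
    · simp [hil]
    · simp [hil]
  have hge : ∀ i j, v.Ge k (ω (D i) (D j)) := fun i j => hdeg.ge _ _ _ _ (hind i) (hind j)
  have hlead : ∀ i j, ω₀ (D₀ i) (D₀ j) = sym k (ω (D i) (D j)) :=
    fun i j => hdeg.lead _ _ _ _ (hind i) (hind j)
  -- log derivations preserve the filtration
  have hgeD : ∀ i c x, v.Ge c x → v.Ge c (D i x) := by
    intro i c x hx
    by_cases hx0 : x = 0
    · rw [hx0, map_zero]
      exact Or.inl rfl
    · exact v.ge_mono (hx.resolve_left hx0) ((hind i).1 x hx0)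
  have hcl₀ : Closed ω₀ := by
    refine closed_of_frame hreg.alt hD₀ fun i j l => ?_
    have e := hcl (D i) (D j) (D l)
    rw [hcomm hD i j, hcomm hD i l, hcomm hD j l] at e
    simp only [map_zero, LinearMap.zero_apply, sub_zero, add_zero] at e
    have e' := congrArg (sym k) e
    rw [hgr.zero, hgr.add _ _ _ (v.ge_sub (hgeD i _ _ (hge j l)) (hgeD j _ _ (hge i l)))
      (hgeD l _ _ (hge i j)), hgr.sub _ (hgeD i _ _ (hge j l)) (hgeD j _ _ (hge i l)),
      ← (hind i).2 _ _ (hge j l), ← (hind j).2 _ _ (hge i l), ← (hind l).2 _ _ (hge i j),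
      ← hlead, ← hlead, ← hlead] at e'
    simp only [dform]
    rw [hcomm hD₀ i j, hcomm hD₀ i l, hcomm hD₀ j l]
    simp only [map_zero, LinearMap.zero_apply, sub_zero, add_zero]
    exact e'
  have hhom : HomForm ξ k ω₀ := by
    have key := form_ext_frame hD₀ (α := Lf ξ ω₀) (β := algebraMap ℂ K₀ (k : ℂ) • ω₀)
      (fun i j => by
        rw [Lf_apply, hξ i, hξ j, map_zero, LinearMap.zero_apply, map_zero, sub_zero, sub_zero,
          hlead, hgr.eig hR k (hge i j), ← hlead]
        rw [LinearMap.smul_apply, LinearMap.smul_apply, algebraMap_smul])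
    intro A B
    have := key A B
    rw [LinearMap.smul_apply, LinearMap.smul_apply, algebraMap_smul] at this
    exact this
  -- values of determinants
  have hdet := gram_det_ne_zero hD hω.alt hω.inj
  have hval : v.val (gram ω D).det / 2 = a :=
    (hasLogDisc_of_frame hD (fun i => (hind i).1) hdet).unique hdisc
  have hn2 : 0 < 2 * n := by
    rcases Nat.eq_zero_or_pos (2 * n) with h0 | h0
    · exfalso
      apply hdeg.ne
      have h1 : Subsingleton (Derivation ℂ K₀ K₀) := by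
        rw [h0] at hd₀
        exact Module.finrank_zero_iff.mp hd₀
      ext A B : 2
      have : A = 0 := Subsingleton.elim _ _
      rw [this, map_zero]
      rfl
    · exact h0
  have hn : 0 < n := by omega
  have hnR : (0 : ℝ) < n := by exact_mod_cast hn
  -- the inverse matrix
  set W : Matrix (Fin (2 * n)) (Fin (2 * n)) K := gram ω D with hW
  set N : Matrix (Fin (2 * n)) (Fin (2 * n)) K := W⁻¹ with hNdef
  have hNW : N * W = 1 := Matrix.nonsing_inv_mul W (isUnit_iff_ne_zero.mpr hdet)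
  have hNW' : ∀ i l, ∑ j, N i j * ω (D j) (D l) = if i = l then 1 else 0 := by
    intro i l
    have h1 : (N * W) i l = (1 : Matrix (Fin (2 * n)) (Fin (2 * n)) K) i l := by rw [hNW]
    rw [Matrix.mul_apply, Matrix.one_apply] at h1
    exact h1
  have hWs : W.transpose = -W := by
    ext i j
    rw [Matrix.transpose_apply, Matrix.neg_apply]
    exact alt_neg hω.alt _ _
  have hNs' : N.transpose = -N := by
    have h1 : (-N.transpose) * W = 1 := by
      have h2 : W * N = 1 := Matrix.mul_nonsing_inv W (isUnit_iff_ne_zero.mpr hdet)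
      have h3 : (W * N).transpose = 1 := by rw [h2, Matrix.transpose_one]
      rw [Matrix.transpose_mul, hWs, Matrix.mul_neg] at h3
      rw [Matrix.neg_mul]
      exact h3
    have h4 := Matrix.inv_eq_left_inv h1
    rw [← hNdef] at h4
    exact (neg_eq_iff_eq_neg.mpr h4).symm
  have hNs : ∀ i j, N i j = -N j i := by
    intro i j
    have h1 := congrFun (congrFun hNs' j) i
    rw [Matrix.transpose_apply, Matrix.neg_apply] at h1
    exact h1
  have hNd : ∀ i, N i i = 0 := by
    intro i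
    have h1 := hNs i i
    have h2 : 2 * N i i = 0 := by linear_combination h1
    exact (mul_eq_zero.mp h2).resolve_left two_ne
  obtain ⟨F, hF⟩ : ∃ F : Fin (2 * n) → Fin (2 * n) → K, ∀ i j, F i j = N i j :=
    ⟨fun i j => N i j, fun _ _ => rfl⟩
  have hFW : ∀ i l, ∑ j, F i j * ω (D j) (D l) = if i = l then 1 else 0 := by
    intro i l
    rw [← hNW' i l]
    exact Finset.sum_congr rfl fun j _ => by rw [hF]
  have hFs : ∀ i j, F i j = -F j i := fun i j => by rw [hF, hF, ← hNs]
  have hFd : ∀ i, F i i = 0 := fun i => by rw [hF, hNd]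
  have hNF : N = Matrix.of F := by
    ext i j
    rw [Matrix.of_apply, hF]
  -- the bracket on `R`
  have hbrR : ∀ x ∈ R, ∀ y ∈ R, brk D F x y ∈ R := by
    intro x hx y hy
    rw [← ham_apply]
    refine hω.perfect (ham D F x) (fun E hE => ?_) y hy
    rw [ham_spec hD hFW]
    exact hE x hx
  -- the least value
  have hNne : ∃ i j, F i j ≠ 0 := by
    by_contra hcon
    push Not at hcon
    have h1 := hFW ⟨0, hn2⟩ ⟨0, hn2⟩
    rw [if_pos rfl] at h1
    rw [Finset.sum_eq_zero fun j _ => by rw [hcon, zero_mul]] at h1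
    exact zero_ne_one h1
  obtain ⟨w, hNge, i₁, j₁, hne₁, hval₁⟩ := exists_min_val v F hNne
  set N₀ : Fin (2 * n) → Fin (2 * n) → K₀ := fun i j => sym w (F i j) with hN₀
  have hN₀s : ∀ i j, N₀ i j = -N₀ j i := by
    intro i j
    show sym w (F i j) = -sym w (F j i)
    rw [← hgr.neg _ (hNge j i), ← hFs]
  have hN₀d : ∀ i, N₀ i i = 0 := by
    intro i
    show sym w (F i i) = 0
    rw [hFd, hgr.zero]
  have hN₀ne : N₀ i₁ j₁ ≠ 0 := by
    intro h0
    rcases (hgr.zero_iff _ _ (hNge i₁ j₁)).mp h0 with h1 | h1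
    · exact hne₁ h1
    · rw [hval₁] at h1
      exact lt_irrefl _ h1
  -- the bracket on `R₀`
  have hbrh : ∀ x ∈ R₀, ∀ y ∈ R₀, ∀ s t : ℝ, ξ x = (s : ℂ) • x → ξ y = (t : ℂ) • y →
      brk D₀ N₀ x y ∈ R₀ ∧ ξ (brk D₀ N₀ x y) = ((w + (s + t) : ℝ) : ℂ) • brk D₀ N₀ x y := by
    intro x hx y hy s t hs ht
    obtain ⟨x', hx', hxs, rfl⟩ := hgr.surj s x hx hs
    obtain ⟨y', hy', hyt, rfl⟩ := hgr.surj t y hy ht
    obtain ⟨e1, e2⟩ := brk_sym hgr hind (fun i j => hNge i j) hxs hyt
    rw [e2]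
    exact hgr.mem _ _ (hbrR x' hx' y' hy') e1
  have hpres : ∀ x ∈ R₀, Pres R₀ (ham D₀ N₀ x) := by
    have h1 : ∀ x ∈ R₀, ∀ s : ℝ, ξ x = (s : ℂ) • x → Pres R₀ (ham D₀ N₀ x) := by
      intro x hx s hs
      refine pres_of_hom h fun y hy t ht => ?_
      rw [ham_apply]
      exact (hbrh x hx y hy s t hs ht).1
    intro y hy
    refine pres_of_hom h fun x hx s hs => ?_
    rw [ham_apply, brk_swap D₀ N₀ hN₀s, ← ham_apply]
    exact R₀.neg_mem (h1 x hx s hs y hy)
  have hbr₀ : ∀ x ∈ R₀, ∀ y ∈ R₀, brk D₀ N₀ x y ∈ R₀ := by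
    intro x hx y hy
    rw [← ham_apply]
    exact hpres x hx y hy
  -- the value of the determinant
  have hdetNW : N.det * W.det = 1 := by rw [← Matrix.det_mul, hNW, Matrix.det_one]
  have hdetN : N.det ≠ 0 := fun h0 => by
    rw [h0, zero_mul] at hdetNW
    exact zero_ne_one hdetNW
  have hvalN : v.val N.det = -(2 * a) := by
    have h1 := v.map_mul _ _ hdetN hdet
    rw [hdetNW, v.val_one] at h1
    linarith
  have hNge' : ∀ i j, v.Ge w (N i j) := fun i j => by
    rw [← hF]
    exact hNge i j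
  have hdet₀ : sym (((2 * n : ℕ) : ℝ) * w) N.det = (Matrix.of N₀).det := by
    rw [hgr.det (M := N) hNge']
    congr 1
    ext i j
    rw [Matrix.of_apply, Matrix.of_apply, ← hF]
  have hwa : ((2 * n : ℕ) : ℝ) * w ≤ -(2 * a) := by
    have h1 := (v.ge_det (c := w) (M := N) hNge').resolve_left hdetN
    rwa [hvalN] at h1
  have hn2R : ((2 * n : ℕ) : ℝ) = 2 * n := by push_cast; ring
  rw [hn2R] at hwa
  -- `N₀` is nondegenerate
  have hdet₀' : (Matrix.of N₀).det ≠ 0 := by
    intro h0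
    obtain ⟨r, b, c, hli, hdec⟩ := alt_decomp N₀ hN₀d hN₀s
    have hr := lt_of_det_eq_zero hli hdec h0
    have hr0 : 0 < r := by
      rcases Nat.eq_zero_or_pos r with h1 | h1
      · exfalso
        subst h1
        apply hN₀ne
        rw [hdec]
        exact Finset.sum_empty
      · exact h1
    have h1 := slope_brk hD₀ hnorm hsl (w := -w) hbr₀ (fun x hx y hy s t hs ht => by
      rw [(hbrh x hx y hy s t hs ht).2]
      congr 2
      ring) hr0 hr hli hdec
    rw [h0] at hdet₀
    have h2 : (2 * n : ℝ) * w < -(2 * a) := by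
      rcases (hgr.zero_iff _ _ (v.ge_det (c := w) (M := N) hNge')).mp hdet₀ with h3 | h3
      · exact absurd h3 hdetN
      · rwa [hvalN, hn2R] at h3
    have hr0R : (0 : ℝ) < r := by exact_mod_cast hr0
    rw [le_div_iff₀ hnR] at h1
    have h4 : (r : ℝ) * (-w * n) ≤ r * a := by linarith
    have h5 := le_of_mul_le_mul_left h4 hr0R
    linarith
  have hwn : (n : ℝ) * w = -a := by
    have h1 : ¬ ((2 * n : ℕ) : ℝ) * w < v.val N.det := by
      intro h1
      apply hdet₀'
      rw [← hdet₀]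
      exact (hgr.zero_iff _ _ (v.ge_det (c := w) (M := N) hNge')).mpr (Or.inr h1)
    rw [hvalN, hn2R] at h1
    linarith
  -- the inverse of `N₀`
  have hprod : ∀ i l, ∑ j, N₀ i j * ω₀ (D₀ j) (D₀ l) = sym (w + k) (if i = l then 1 else 0) := by
    intro i l
    rw [← hFW i l, ← sum_mul_sym hgr (N := F) (W := fun i j => ω (D i) (D j)) hNge hge i l]
    exact Finset.sum_congr rfl fun j _ => by rw [hlead]
  have hk1 : w + k ≤ 0 := by
    have h1 : v.Ge (w + k) (∑ j, F ⟨0, hn2⟩ j * ω (D j) (D ⟨0, hn2⟩)) :=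
      v.ge_sum _ _ fun j _ => v.ge_mul (hNge _ _) (hge _ _)
    rw [hFW, if_pos rfl] at h1
    have h2 := h1.resolve_left one_ne_zero
    rwa [v.val_one] at h2
  have hk2 : ¬ w + k < 0 := by
    intro hlt
    apply hdeg.ne
    have h1 : ∀ i l, ∑ j, N₀ i j * ω₀ (D₀ j) (D₀ l) = 0 := by
      intro i l
      rw [hprod]
      by_cases hil : i = l
      · rw [if_pos hil]
        refine (hgr.zero_iff _ _ (Or.inr ?_)).mpr (Or.inr ?_)
        · rw [v.val_one]
          exact hk1
        · rw [v.val_one]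
          exact hlt
      · rw [if_neg hil, hgr.zero]
    have h2 : ∀ j l, ω₀ (D₀ j) (D₀ l) = 0 := by
      intro j l
      have h3 : (Matrix.of N₀).mulVec (fun j => ω₀ (D₀ j) (D₀ l)) = 0 := by
        funext i
        rw [Matrix.mulVec, dotProduct]
        exact h1 i l
      exact congrFun (Matrix.eq_zero_of_mulVec_eq_zero hdet₀' h3) j
    have h4 := form_ext_frame hD₀ (α := ω₀) (β := 0) (fun i j => by
      rw [h2]
      rfl)
    exact LinearMap.ext fun A => LinearMap.ext fun B => h4 A B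
  have hwk : w + k = 0 := le_antisymm hk1 (not_lt.mp hk2)
  have hspec : ∀ i l, ∑ j, N₀ i j * ω₀ (D₀ j) (D₀ l) = if i = l then 1 else 0 := by
    intro i l
    rw [hprod, hwk]
    by_cases hil : i = l
    · rw [if_pos hil, if_pos hil, hgr.one]
    · rw [if_neg hil, if_neg hil, hgr.zero]
  have hdetω₀ : (gram ω₀ D₀).det ≠ 0 := by
    intro h0
    have h1 : Matrix.of N₀ * gram ω₀ D₀ = 1 := by
      ext i l
      rw [Matrix.mul_apply, Matrix.one_apply]
      exact hspec i l
    have h2 : (Matrix.of N₀).det * (gram ω₀ D₀).det = 1 := by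
      rw [← Matrix.det_mul, h1, Matrix.det_one]
    rw [h0, mul_zero] at h2
    exact zero_ne_one h2
  have hka : k = a / n := by
    rw [eq_div_iff hnR.ne']
    have h1 : k = -w := by linarith
    rw [h1]
    linarith
  refine ⟨hka, ⟨hreg, inj_of_det hD₀ hdetω₀, fun Z hZ => ?_⟩, hcl₀, hhom⟩
  intro x hx
  have h1 := ham_spec hD₀ hspec x Z
  rw [← h1, alt_neg hreg.alt]
  exact R₀.neg_mem (hZ _ (hpres x hx))

end Pool.Agent.Helper37.TS
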