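import Pool.Agent.Helper37.TS.Main

set_option autoImplicit false

/-!
MP_e1889a_ag: if the tangent sheaf of `X₀` satisfies the slope inequality for the regular
homogeneous decomposable multivector fields of even rank `< 2 n`, then every symplectic form of `X`
degenerates to a symplectic form of `X₀`.

`X` has the ring `R` and the function field `K`, `v` is a quasi-monomial valuation of log
discrepancy `a` (the minimizer of the normalized volume), `R₀ = gr_v R` has the fraction field `K₀`
and the Reeb field `ξ`.
-/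

namespace Pool.Agent.Helper37.TS.Res

open Pool.Agent.Helper37.SD Pool.Agent.Helper37.TS Pool.Agent.Helper20.TS

theorem result (K : Type) [Field K] [Algebra ℂ K] (K₀ : Type) [Field K₀] [Algebra ℂ K₀]
    (n : ℕ) (R : Subalgebra ℂ K) (v : RVal K) (R₀ : Subalgebra ℂ K₀) (ξ : Derivation ℂ K₀ K₀)
    (sym : ℝ → K → K₀)
    -- `v` is quasi-monomial and `Spec R₀` is the cone `Spec (gr_v R)`, which is normal
    (hR : IsFrac R) (hgr : IsGr R v R₀ ξ sym) (hq : QuasiMonomial (2 * n) v sym)
    (hcone : IsCone R₀ ξ) (hnorm : Normal R₀)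
    -- a symplectic form on `X`, the log discrepancy of `v`, the degeneration of the form
    (ω : Form K) (hω : IsNondeg R ω) (hclosed : Closed ω) (a : ℝ) (hdisc : HasLogDisc n ω v a)
    (ω₀ : Form K₀) (k : ℝ) (hdeg : IsDegen v sym ω k ω₀) (hreg : IsReg R₀ ω₀)
    -- the slope inequality
    (hslope : SlopeLe n R₀ ξ a) :
    k = a / n ∧ IsNondeg R₀ ω₀ ∧ Closed ω₀ ∧ HomForm ξ k ω₀ :=
  main hcone hR hgr hq hnorm hslope hω hclosed hdisc hdeg hreg

end Pool.Agent.Helper37.TS.Res
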